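import Mathlib

namespace Pool.Agent.Lib.MP_8a5253_lc

open Module Submodule

section

variable {A W V : Type*} [AddCommGroup A] [Module ℂ A] [AddCommGroup W] [Module ℂ W]
  [AddCommGroup V] [Module ℂ V]

theorem rank_nullity [FiniteDimensional ℂ A] (f : A →ₗ[ℂ] W) (S : Submodule ℂ A) :
    finrank ℂ (S.map f) + finrank ℂ (S ⊓ LinearMap.ker f : Submodule ℂ A) = finrank ℂ S := by
  have h := LinearMap.finrank_range_add_finrank_ker (f.domRestrict S)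
  rw [LinearMap.range_domRestrict, LinearMap.ker_domRestrict] at h
  rw [← h, ← Submodule.finrank_map_subtype_eq S (Submodule.comap S.subtype (LinearMap.ker f)),
    Submodule.map_comap_subtype]

/-- One filtration step. -/
theorem one_step [FiniteDimensional ℂ A] [FiniteDimensional ℂ V]
    (T : A →ₗ[ℂ] A) (τ : V →ₗ[ℂ] V) (e : A →ₗ[ℂ] V) (φ : A →ₗ[ℂ] W) (A0 A1 : Submodule ℂ A)
    (h01 : A0 ≤ A1) (hT : A1.map T ≤ A1) (hker : ∀ g ∈ A1, e g = 0 → g ∈ A0)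
    (he : ∀ g, e (T g) = τ (e g)) :
    finrank ℂ (A1.map φ) ≤ finrank ℂ ((A0 ⊔ A1.map T).map φ) +
      finrank ℂ (A1.map e ⊓ LinearMap.ker τ : Submodule ℂ V) := by
  set A' := A0 ⊔ A1.map T with hA'
  have hle : A' ≤ A1 := sup_le h01 hT
  have h1 := rank_nullity φ A1
  have h2 := rank_nullity φ A'
  have h3 := rank_nullity e A1
  have h4 := rank_nullity e A'
  have h5 := rank_nullity τ (A1.map e)
  have h6 : finrank ℂ (A' ⊓ LinearMap.ker φ : Submodule ℂ A) ≤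
      finrank ℂ (A1 ⊓ LinearMap.ker φ : Submodule ℂ A) :=
    Submodule.finrank_mono (inf_le_inf_right _ hle)
  have h7 : finrank ℂ (A1 ⊓ LinearMap.ker e : Submodule ℂ A) ≤
      finrank ℂ (A' ⊓ LinearMap.ker e : Submodule ℂ A) := by
    apply Submodule.finrank_mono
    rintro g ⟨hg1, hg2⟩
    exact ⟨(le_sup_left : A0 ≤ A') (hker g hg1 hg2), hg2⟩
  have h8 : finrank ℂ ((A1.map e).map τ) ≤ finrank ℂ (A'.map e) := by
    apply Submodule.finrank_mono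
    rintro _ ⟨_, ⟨g, hg, rfl⟩, rfl⟩
    exact ⟨T g, (le_sup_right : A1.map T ≤ A') ⟨g, hg, rfl⟩, he g⟩
  omega

/-- If `z` maps `P` into `K`, the dimension of `P` exceeds that of `K` by at most the kernel. -/
theorem small_step [FiniteDimensional ℂ W] (z : W →ₗ[ℂ] W) (P K B : Submodule ℂ W)
    (hP : P ≤ B) (hz : P.map z ≤ K) :
    finrank ℂ P ≤ finrank ℂ K + finrank ℂ (B ⊓ LinearMap.ker z : Submodule ℂ W) := by
  have h1 := rank_nullity z P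
  have h2 : finrank ℂ (P.map z) ≤ finrank ℂ K := Submodule.finrank_mono hz
  have h3 : finrank ℂ (P ⊓ LinearMap.ker z : Submodule ℂ W) ≤
      finrank ℂ (B ⊓ LinearMap.ker z : Submodule ℂ W) :=
    Submodule.finrank_mono (inf_le_inf_right _ hP)
  omega

theorem finrank_prod_sub [FiniteDimensional ℂ W] (P Q : Submodule ℂ W) :
    finrank ℂ (P.prod Q) = finrank ℂ P + finrank ℂ Q := by
  rw [← Module.finrank_prod]
  exact LinearEquiv.finrank_eq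
    { toFun := fun x => (⟨x.1.1, x.2.1⟩, ⟨x.1.2, x.2.2⟩)
      invFun := fun y => ⟨(y.1.1, y.2.1), y.1.2, y.2.2⟩
      map_add' := fun _ _ => rfl
      map_smul' := fun _ _ => rfl
      left_inv := fun _ => rfl
      right_inv := fun _ => rfl }

/-- The layer inequality. `A` carries commuting operators `t ξ η z`; `φ` maps them to operators on
`W` with `ξ² = η² = 0`, `ξη = zt`; `e` maps them to `sh ∘ t'`, `sh ∘ ξ'`, ... on `V`. -/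
theorem layer [FiniteDimensional ℂ A] [FiniteDimensional ℂ V] [FiniteDimensional ℂ W]
    (t ξ η z : A →ₗ[ℂ] A) (e : A →ₗ[ℂ] V) (φ : A →ₗ[ℂ] W) (A0 A1 : Submodule ℂ A)
    (tW ξW ηW zW : W →ₗ[ℂ] W) (B : Submodule ℂ W)
    (τ zV sh ξV ηV P : V →ₗ[ℂ] V) (D : Submodule ℂ V)
    (h01 : A0 ≤ A1) (hker : ∀ g ∈ A1, e g = 0 → g ∈ A0)
    (ht1 : ∀ g ∈ A1, t g ∈ A1) (hξ1 : ∀ g ∈ A1, ξ g ∈ A1) (hη1 : ∀ g ∈ A1, η g ∈ A1)
    (hz1 : ∀ g ∈ A1, z g ∈ A1)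
    (hξ0 : ∀ g ∈ A0, ξ g ∈ A0) (hη0 : ∀ g ∈ A0, η g ∈ A0) (hz0 : ∀ g ∈ A0, z g ∈ A0)
    (he0 : ∀ g ∈ A0, e g = 0)
    (φt : ∀ g, φ (t g) = tW (φ g)) (φξ : ∀ g, φ (ξ g) = ξW (φ g))
    (φη : ∀ g, φ (η g) = ηW (φ g)) (φz : ∀ g, φ (z g) = zW (φ g))
    (hB : ∀ g ∈ A1, φ g ∈ B)
    (ξξ : ∀ w, ξW (ξW w) = 0) (ηη : ∀ w, ηW (ηW w) = 0)
    (ξη : ∀ w, ξW (ηW w) = zW (tW w)) (ηξ : ∀ w, ηW (ξW w) = zW (tW w))
    (et : ∀ g, e (t g) = τ (e g)) (ez : ∀ g, e (z g) = zV (e g))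
    (eξ : ∀ g, e (ξ g) = sh (ξV (e g))) (eη : ∀ g, e (η g) = sh (ηV (e g)))
    (τξ : ∀ v, ξV (τ v) = τ (ξV v)) (τη : ∀ v, ηV (τ v) = τ (ηV v))
    (zξ : ∀ v, ξV (zV v) = zV (ξV v)) (zη : ∀ v, ηV (zV v) = zV (ηV v))
    (sξ : ∀ v, ξV (sh v) = sh (ξV v)) (sη : ∀ v, ηV (sh v) = sh (ηV v))
    (cV : ∀ v, ξV (ηV v) = ηV (ξV v))
    (Pξ : ∀ v, ξV (P v) = P (ξV v)) (Pη : ∀ v, ηV (P v) = P (ηV v))
    (hPD : ∀ g, P (e g) ∈ D)
    (hτ : ∀ g h, τ (ξV (e g) + ηV (e h)) = 0 →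
      P (ξV (e g) + ηV (e h)) = ξV (e g) + ηV (e h))
    (hτ' : ∀ g, τ (e g) = 0 → e g ∈ D) :
    finrank ℂ (A1.map φ) ≤ finrank ℂ (A0.map φ) +
      2 * finrank ℂ (B ⊓ LinearMap.ker zW : Submodule ℂ W) + finrank ℂ D := by
  set μ : V × V →ₗ[ℂ] V := ξV.coprod ηV with hμ
  set e1 : A × A →ₗ[ℂ] V := μ ∘ₗ e.prodMap e with he1
  set Syz : Submodule ℂ (A × A) := A1.prod A1 ⊓ LinearMap.ker e1 with hSyz
  have he1a : ∀ g : A × A, e1 g = ξV (e g.1) + ηV (e g.2) := fun g => by simp [he1, hμ]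
  have memSyz : ∀ g : A × A, g ∈ Syz ↔ g.1 ∈ A1 ∧ g.2 ∈ A1 ∧ ξV (e g.1) + ηV (e g.2) = 0 := by
    intro g
    rw [hSyz, Submodule.mem_inf, Submodule.mem_prod, LinearMap.mem_ker, he1a, and_assoc]
  -- step 1
  have s1 := one_step (t.prodMap t) τ e1 (φ.prodMap φ) Syz (A1.prod A1) inf_le_left
    (by rintro _ ⟨g, hg, rfl⟩; exact ⟨ht1 _ hg.1, ht1 _ hg.2⟩)
    (fun g hg h => ⟨hg, h⟩)
    (fun g => by simp [he1a, et, τξ, τη])
  have s2 := one_step (t.prodMap t) (τ.prodMap τ) (e.prodMap e) (φ.prodMap φ) (A0.prod A0) Syz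
    (by
      intro g hg
      rw [memSyz]
      refine ⟨h01 hg.1, h01 hg.2, ?_⟩
      rw [he0 _ hg.1, he0 _ hg.2]; simp)
    (by
      rintro _ ⟨g, hg, rfl⟩
      rw [SetLike.mem_coe, memSyz] at hg
      rw [memSyz]
      refine ⟨ht1 _ hg.1, ht1 _ hg.2.1, ?_⟩
      simp only [LinearMap.prodMap_apply, et, τξ, τη]
      rw [← map_add, hg.2.2, map_zero])
    (by
      intro g hg h
      rw [memSyz] at hg
      simp only [LinearMap.prodMap_apply, Prod.mk_eq_zero] at h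
      exact ⟨hker _ hg.1 h.1, hker _ hg.2.1 h.2⟩)
    (fun g => by simp [et])
  have hSyz1 : Syz ≤ A1.prod A1 := inf_le_left
  have hBB : ∀ S : Submodule ℂ (A × A), S ≤ A1.prod A1 → S.map (φ.prodMap φ) ≤ B.prod B := by
    rintro S hS _ ⟨g, hg, rfl⟩
    exact ⟨hB _ (hS hg).1, hB _ (hS hg).2⟩
  have hTT : ∀ S : Submodule ℂ (A × A), S ≤ A1.prod A1 → S.map (t.prodMap t) ≤ A1.prod A1 := by
    rintro S hS _ ⟨g, hg, rfl⟩
    exact ⟨ht1 _ (hS hg).1, ht1 _ (hS hg).2⟩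
  have w1 := small_step (zW.prodMap zW) ((Syz ⊔ (A1.prod A1).map (t.prodMap t)).map (φ.prodMap φ))
    (Syz.map (φ.prodMap φ)) (B.prod B) (hBB _ (sup_le hSyz1 (hTT _ le_rfl)))
    (by
      rw [Submodule.map_sup, Submodule.map_sup]
      apply sup_le
      · rintro _ ⟨_, ⟨g, hg, rfl⟩, rfl⟩
        rw [SetLike.mem_coe, memSyz] at hg
        refine ⟨(z g.1, z g.2), ?_, by simp [φz]⟩
        rw [SetLike.mem_coe, memSyz]
        refine ⟨hz1 _ hg.1, hz1 _ hg.2.1, ?_⟩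
        simp only [ez, zξ, zη]
        rw [← map_add, hg.2.2, map_zero]
      · rintro _ ⟨_, ⟨_, ⟨g, hg, rfl⟩, rfl⟩, rfl⟩
        refine ⟨(η (ξ g.1) - η (η g.2), ξ (η g.2) - ξ (ξ g.1)), ?_, ?_⟩
        · rw [SetLike.mem_coe, memSyz]
          refine ⟨A1.sub_mem (hη1 _ (hξ1 _ hg.1)) (hη1 _ (hη1 _ hg.2)),
            A1.sub_mem (hξ1 _ (hη1 _ hg.2)) (hξ1 _ (hξ1 _ hg.1)), ?_⟩
          simp only [map_sub, eξ, eη, sξ, sη, cV]
          abel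
        · simp [φξ, φη, φt, ξξ, ηη, ξη, ηξ])
  have w2 := small_step (zW.prodMap zW)
    ((A0.prod A0 ⊔ Syz.map (t.prodMap t)).map (φ.prodMap φ))
    ((A0.prod A0).map (φ.prodMap φ)) (B.prod B)
    (hBB _ (sup_le (fun g hg => ⟨h01 hg.1, h01 hg.2⟩) (hTT _ hSyz1)))
    (by
      rw [Submodule.map_sup, Submodule.map_sup]
      apply sup_le
      · rintro _ ⟨_, ⟨g, hg, rfl⟩, rfl⟩
        exact ⟨(z g.1, z g.2), ⟨hz0 _ hg.1, hz0 _ hg.2⟩, by simp [φz]⟩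
      · rintro _ ⟨_, ⟨_, ⟨g, hg, rfl⟩, rfl⟩, rfl⟩
        rw [SetLike.mem_coe, memSyz] at hg
        have h0 : ξ g.1 + η g.2 ∈ A0 := by
          apply hker _ (A1.add_mem (hξ1 _ hg.1) (hη1 _ hg.2.1))
          rw [map_add, eξ, eη, ← map_add, hg.2.2, map_zero]
        refine ⟨(η (ξ g.1 + η g.2), ξ (ξ g.1 + η g.2)), ⟨hη0 _ h0, hξ0 _ h0⟩, ?_⟩
        simp [φξ, φη, φt, ξξ, ηη, ξη, ηξ])
  have k1 : finrank ℂ ((A1.prod A1).map e1 ⊓ LinearMap.ker τ : Submodule ℂ V) ≤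
      finrank ℂ ((D.prod D).map μ) := by
    apply Submodule.finrank_mono
    rintro _ ⟨⟨g, -, rfl⟩, h⟩
    rw [SetLike.mem_coe, LinearMap.mem_ker, he1a] at h
    refine ⟨(P (e g.1), P (e g.2)), ⟨hPD _, hPD _⟩, ?_⟩
    rw [he1a, ← hτ _ _ h]
    simp [hμ, Pξ, Pη]
  have k2 : finrank ℂ (Syz.map (e.prodMap e) ⊓ LinearMap.ker (τ.prodMap τ) :
      Submodule ℂ (V × V)) ≤ finrank ℂ (D.prod D ⊓ LinearMap.ker μ : Submodule ℂ (V × V)) := by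
    apply Submodule.finrank_mono
    rintro _ ⟨⟨g, hg, rfl⟩, h⟩
    rw [SetLike.mem_coe, memSyz] at hg
    simp only [SetLike.mem_coe, LinearMap.mem_ker, LinearMap.prodMap_apply, Prod.mk_eq_zero] at h
    refine ⟨⟨hτ' _ h.1, hτ' _ h.2⟩, ?_⟩
    simpa [hμ] using hg.2.2
  have k3 := rank_nullity μ (D.prod D)
  have p1 : (A1.prod A1).map (φ.prodMap φ) = (A1.map φ).prod (A1.map φ) :=
    LinearMap.prodMap_map_prod _ _ _ _
  have p0 : (A0.prod A0).map (φ.prodMap φ) = (A0.map φ).prod (A0.map φ) :=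
    LinearMap.prodMap_map_prod _ _ _ _
  have pz : (B.prod B ⊓ LinearMap.ker (zW.prodMap zW) : Submodule ℂ (W × W)) =
      (B ⊓ LinearMap.ker zW).prod (B ⊓ LinearMap.ker zW) := by
    rw [LinearMap.ker_prodMap, Submodule.prod_inf_prod]
  rw [p1, finrank_prod_sub] at s1
  rw [p0, pz, finrank_prod_sub, finrank_prod_sub] at w2
  rw [pz, finrank_prod_sub] at w1
  rw [finrank_prod_sub] at k3
  omega

end

end Pool.Agent.Lib.MP_8a5253_lc
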