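import Mathlib
import Pool.Agent.Lib.MP_8a5253_lc.LinAlg

namespace Pool.Agent.Lib.MP_8a5253_lc

open Module Finset

variable {ι : Type*} [Fintype ι] [DecidableEq ι]

section one

variable {R : Type*} [CommRing R]

def xo (i : ι) (v : Finset ι → R) (I : Finset ι) : R := if i ∈ I then v (I.erase i) else 0

def dn (i : ι) (v : Finset ι → R) (I : Finset ι) : R := if i ∈ I then 0 else v (insert i I)

def up (v : Finset ι → R) (I : Finset ι) : R := ∑ i, xo i v I

def down (v : Finset ι → R) (I : Finset ι) : R := ∑ i, dn i v I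

theorem adj1 (i : ι) (v w : Finset ι → R) :
    ∑ I, xo i v I * w I = ∑ I, v I * dn i w I := by
  have hinv : Function.Involutive (fun I : Finset ι => if i ∈ I then I.erase i else insert i I) := by
    intro I
    by_cases h : i ∈ I
    · simp [h]
    · simp [h]
  rw [← Equiv.sum_comp hinv.toPerm]
  apply Finset.sum_congr rfl
  intro I _
  by_cases h : i ∈ I
  · simp [xo, dn, h]
  · simp [xo, dn, h]

theorem adj (v w : Finset ι → R) : ∑ I, up v I * w I = ∑ I, v I * down w I := by
  simp only [up, down, Finset.sum_mul, Finset.mul_sum]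
  rw [Finset.sum_comm, Finset.sum_comm (f := fun I i => v I * dn i w I)]
  exact Finset.sum_congr rfl fun i _ => adj1 i v w

theorem comm1 (i j : ι) (v : Finset ι → R) (I : Finset ι) :
    dn i (xo j v) I = xo j (dn i v) I + if i = j then (if i ∈ I then - v I else v I) else 0 := by
  by_cases hij : i = j
  · subst hij
    by_cases h : i ∈ I
    · simp [xo, dn, h]
    · simp [xo, dn, h]
  · have hji : j ≠ i := fun h => hij h.symm
    by_cases hi : i ∈ I <;> by_cases hj : j ∈ I <;>
      simp [xo, dn, hi, hj, hij, hji, Finset.erase_insert_of_ne hij]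

theorem comm (v : Finset ι → R) (I : Finset ι) :
    down (up v) I = up (down v) I + ((Fintype.card ι : R) - 2 * I.card) * v I := by
  have h1 : ∀ i, dn i (up v) I = ∑ j, dn i (xo j v) I := by
    intro i
    by_cases h : i ∈ I <;> simp [dn, up, h]
  have h2 : ∀ j, xo j (down v) I = ∑ i, xo j (dn i v) I := by
    intro j
    by_cases h : j ∈ I <;> simp [xo, down, h]
  have h3 : ∑ i, (if i ∈ I then - v I else v I) = ((Fintype.card ι : R) - 2 * I.card) * v I := by
    have : ∀ i, (if i ∈ I then - v I else v I) = v I - (if i ∈ I then 2 * v I else 0) := by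
      intro i
      by_cases h : i ∈ I
      · simp [h]; ring
      · simp [h]
    simp only [this, Finset.sum_sub_distrib, Finset.sum_ite_mem, Finset.univ_inter,
      Finset.sum_const, Finset.card_univ, nsmul_eq_mul]
    ring
  unfold down
  simp only [h1, comm1, Finset.sum_add_distrib, Finset.sum_ite_eq, Finset.mem_univ, if_true, h3]
  congr 1
  unfold up
  rw [Finset.sum_comm]
  exact Finset.sum_congr rfl fun j _ => (h2 j).symm

end one

theorem norm_id (v : Finset ι → ℝ) :
    ∑ I, up v I * up v I =
      ∑ I, down v I * down v I + ∑ I, ((Fintype.card ι : ℝ) - 2 * I.card) * (v I * v I) := by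
  rw [adj, ← adj (down v) v, ← Finset.sum_add_distrib]
  apply Finset.sum_congr rfl
  intro I _
  rw [comm]
  ring

theorem up_inj_real (v : Finset ι → ℝ) (hs : ∀ I, v I ≠ 0 → 2 * I.card < Fintype.card ι)
    (h : ∀ I, up v I = 0) (I : Finset ι) : v I = 0 := by
  have h1 := norm_id v
  simp only [h, mul_zero, Finset.sum_const_zero] at h1
  have h2 : 0 ≤ ∑ I, down v I * down v I := Finset.sum_nonneg fun I _ => mul_self_nonneg _
  have h3 : ∀ I ∈ (univ : Finset (Finset ι)),
      0 ≤ ((Fintype.card ι : ℝ) - 2 * I.card) * (v I * v I) := by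
    intro I _
    by_cases hv : v I = 0
    · simp [hv]
    · have := hs I hv
      have h' : (2 * I.card : ℝ) < Fintype.card ι := by exact_mod_cast this
      exact mul_nonneg (by linarith) (mul_self_nonneg _)
  have h4 := Finset.sum_nonneg h3
  have h5 := (Finset.sum_eq_zero_iff_of_nonneg h3).1 (by linarith) I (mem_univ _)
  by_contra hv
  have h' : (2 * I.card : ℝ) < Fintype.card ι := by exact_mod_cast hs I hv
  have : 0 < ((Fintype.card ι : ℝ) - 2 * I.card) * (v I * v I) :=
    mul_pos (by linarith) (mul_self_pos.2 hv)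
  linarith

theorem updown_inj_real (v : Finset ι → ℝ) (hs : ∀ I, v I ≠ 0 → Fintype.card ι < 2 * I.card)
    (h : ∀ I, up (down v) I = 0) (I : Finset ι) : v I = 0 := by
  have h0 := adj (down v) v
  simp only [h, zero_mul, Finset.sum_const_zero] at h0
  have h1 := norm_id v
  rw [← h0] at h1
  have h2 : 0 ≤ ∑ I, up v I * up v I := Finset.sum_nonneg fun I _ => mul_self_nonneg _
  have h3 : ∀ I ∈ (univ : Finset (Finset ι)),
      ((Fintype.card ι : ℝ) - 2 * I.card) * (v I * v I) ≤ 0 := by
    intro I _
    by_cases hv : v I = 0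
    · simp [hv]
    · have := hs I hv
      have h' : (Fintype.card ι : ℝ) < 2 * I.card := by exact_mod_cast this
      exact mul_nonpos_of_nonpos_of_nonneg (by linarith) (mul_self_nonneg _)
  have h4 := Finset.sum_nonpos h3
  have h5 := (Finset.sum_eq_zero_iff_of_nonpos h3).1 (by linarith) I (mem_univ _)
  by_contra hv
  have h' : (Fintype.card ι : ℝ) < 2 * I.card := by exact_mod_cast hs I hv
  have : ((Fintype.card ι : ℝ) - 2 * I.card) * (v I * v I) < 0 :=
    mul_neg_of_neg_of_pos (by linarith) (mul_self_pos.2 hv)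
  linarith

theorem up_map (f : ℂ →+ ℝ) (v : Finset ι → ℂ) (I : Finset ι) :
    up (fun J => f (v J)) I = f (up v I) := by
  simp only [up, map_sum]
  apply Finset.sum_congr rfl
  intro i _
  by_cases h : i ∈ I <;> simp [xo, h]

theorem down_map (f : ℂ →+ ℝ) (v : Finset ι → ℂ) :
    down (fun J => f (v J)) = fun I => f (down v I) := by
  funext I
  simp only [down, map_sum]
  apply Finset.sum_congr rfl
  intro i _
  by_cases h : i ∈ I <;> simp [dn, h]

theorem up_inj (v : Finset ι → ℂ) (hs : ∀ I, v I ≠ 0 → 2 * I.card < Fintype.card ι)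
    (h : ∀ I, up v I = 0) (I : Finset ι) : v I = 0 := by
  have key : ∀ f : ℂ →+ ℝ, f (v I) = 0 := fun f =>
    up_inj_real (fun J => f (v J)) (fun J hJ => hs J fun h0 => hJ (by simp [h0]))
      (fun J => by rw [up_map, h, map_zero]) I
  exact Complex.ext (key Complex.reAddGroupHom) (key Complex.imAddGroupHom)

theorem updown_inj (v : Finset ι → ℂ) (hs : ∀ I, v I ≠ 0 → Fintype.card ι < 2 * I.card)
    (h : ∀ I, up (down v) I = 0) (I : Finset ι) : v I = 0 := by
  have key : ∀ f : ℂ →+ ℝ, f (v I) = 0 := fun f =>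
    updown_inj_real (fun J => f (v J)) (fun J hJ => hs J fun h0 => hJ (by simp [h0]))
      (fun J => by rw [down_map, up_map, h, map_zero]) I
  exact Complex.ext (key Complex.reAddGroupHom) (key Complex.imAddGroupHom)

end Pool.Agent.Lib.MP_8a5253_lc
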