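import Mathlib
import Pool.Agent.Lib.MP_8a5253_lc.Bool

namespace Pool.Agent.Lib.MP_8a5253_lc

open Module Finset

set_option linter.unusedSectionVars false

variable {ι : Type*} [Fintype ι] [DecidableEq ι]

abbrev W (ι : Type*) := Finset ι × Finset ι → ℂ

def XX (i : ι) : W ι →ₗ[ℂ] W ι where
  toFun w p := if i ∈ p.1 then w (p.1.erase i, p.2) else 0
  map_add' v w := by funext p; by_cases h : i ∈ p.1 <;> simp [h]
  map_smul' c w := by funext p; by_cases h : i ∈ p.1 <;> simp [h]

def YY (j : ι) : W ι →ₗ[ℂ] W ι where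
  toFun w p := if j ∈ p.2 then w (p.1, p.2.erase j) else 0
  map_add' v w := by funext p; by_cases h : j ∈ p.2 <;> simp [h]
  map_smul' c w := by funext p; by_cases h : j ∈ p.2 <;> simp [h]

def DX (i : ι) : W ι →ₗ[ℂ] W ι where
  toFun w p := if i ∈ p.1 then 0 else w (insert i p.1, p.2)
  map_add' v w := by funext p; by_cases h : i ∈ p.1 <;> simp [h]
  map_smul' c w := by funext p; by_cases h : i ∈ p.1 <;> simp [h]

def DY (j : ι) : W ι →ₗ[ℂ] W ι where
  toFun w p := if j ∈ p.2 then 0 else w (p.1, insert j p.2)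
  map_add' v w := by funext p; by_cases h : j ∈ p.2 <;> simp [h]
  map_smul' c w := by funext p; by_cases h : j ∈ p.2 <;> simp [h]

theorem XX_apply (i : ι) (w : W ι) (p : Finset ι × Finset ι) :
    XX i w p = if i ∈ p.1 then w (p.1.erase i, p.2) else 0 := rfl

theorem YY_apply (j : ι) (w : W ι) (p : Finset ι × Finset ι) :
    YY j w p = if j ∈ p.2 then w (p.1, p.2.erase j) else 0 := rfl

theorem DX_apply (i : ι) (w : W ι) (p : Finset ι × Finset ι) :
    DX i w p = if i ∈ p.1 then 0 else w (insert i p.1, p.2) := rfl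

theorem DY_apply (j : ι) (w : W ι) (p : Finset ι × Finset ι) :
    DY j w p = if j ∈ p.2 then 0 else w (p.1, insert j p.2) := rfl

noncomputable def UX : W ι →ₗ[ℂ] W ι := ∑ i, XX i

noncomputable def UY : W ι →ₗ[ℂ] W ι := ∑ j, YY j

noncomputable def LX : W ι →ₗ[ℂ] W ι := ∑ i, DX i

noncomputable def LY : W ι →ₗ[ℂ] W ι := ∑ j, DY j

theorem UX_apply (w : W ι) : UX w = ∑ i, XX i w := by simp [UX]

theorem UY_apply (w : W ι) : UY w = ∑ i, YY i w := by simp [UY]

theorem LX_apply (w : W ι) : LX w = ∑ i, DX i w := by simp [LX]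

theorem LY_apply (w : W ι) : LY w = ∑ i, DY i w := by simp [LY]

theorem XX_XX (i : ι) (w : W ι) : XX i (XX i w) = 0 := by
  funext p; simp [XX_apply]

theorem YY_YY (i : ι) (w : W ι) : YY i (YY i w) = 0 := by
  funext p; simp [YY_apply]

theorem XX_comm (i j : ι) (w : W ι) : XX i (XX j w) = XX j (XX i w) := by
  funext p
  by_cases hij : i = j
  · rw [hij]
  · have hji : j ≠ i := fun h => hij h.symm
    by_cases hi : i ∈ p.1 <;> by_cases hj : j ∈ p.1 <;>
      simp [XX_apply, hi, hj, hij, hji, Finset.erase_right_comm (a := i)]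

theorem YY_comm (i j : ι) (w : W ι) : YY i (YY j w) = YY j (YY i w) := by
  funext p
  by_cases hij : i = j
  · rw [hij]
  · have hji : j ≠ i := fun h => hij h.symm
    by_cases hi : i ∈ p.2 <;> by_cases hj : j ∈ p.2 <;>
      simp [YY_apply, hi, hj, hij, hji, Finset.erase_right_comm (a := i)]

theorem XY_comm (i j : ι) (w : W ι) : XX i (YY j w) = YY j (XX i w) := by
  funext p
  by_cases hi : i ∈ p.1 <;> by_cases hj : j ∈ p.2 <;> simp [XX_apply, YY_apply, hi, hj]

theorem DXY_comm (i j : ι) (w : W ι) : DX i (YY j w) = YY j (DX i w) := by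
  funext p
  by_cases hi : i ∈ p.1 <;> by_cases hj : j ∈ p.2 <;> simp [DX_apply, YY_apply, hi, hj]

theorem XX_UX (i : ι) (w : W ι) : XX i (UX w) = UX (XX i w) := by
  simp only [UX_apply, map_sum, XX_comm i]

theorem XX_UY (i : ι) (w : W ι) : XX i (UY w) = UY (XX i w) := by
  simp only [UY_apply, map_sum, XY_comm i]

theorem YY_UX (j : ι) (w : W ι) : YY j (UX w) = UX (YY j w) := by
  simp only [UX_apply, map_sum, XY_comm]

theorem YY_UY (j : ι) (w : W ι) : YY j (UY w) = UY (YY j w) := by
  simp only [UY_apply, map_sum, YY_comm j]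

theorem UY_UX (w : W ι) : UY (UX w) = UX (UY w) := by
  rw [UY_apply, UY_apply, map_sum]
  simp only [YY_UX]

theorem UY_LX (w : W ι) : UY (LX w) = LX (UY w) := by
  rw [LX_apply, LX_apply, map_sum]
  apply Finset.sum_congr rfl
  intro i _
  simp only [UY_apply, map_sum, DXY_comm]

theorem UX_eq (w : W ι) (I K : Finset ι) : UX w (I, K) = up (fun J => w (J, K)) I := by
  rw [UX_apply, Finset.sum_apply]; rfl

theorem UY_eq (w : W ι) (I K : Finset ι) : UY w (I, K) = up (fun J => w (I, J)) K := by
  rw [UY_apply, Finset.sum_apply]; rfl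

theorem LX_eq (w : W ι) (I K : Finset ι) : LX w (I, K) = down (fun J => w (J, K)) I := by
  rw [LX_apply, Finset.sum_apply]; rfl

theorem LY_eq (w : W ι) (I K : Finset ι) : LY w (I, K) = down (fun J => w (I, J)) K := by
  rw [LY_apply, Finset.sum_apply]; rfl

theorem up_ne {v : Finset ι → ℂ} {I : Finset ι} (h : up v I ≠ 0) :
    ∃ J, v J ≠ 0 ∧ I.card = J.card + 1 := by
  obtain ⟨i, -, hi⟩ := Finset.exists_ne_zero_of_sum_ne_zero h
  by_cases hI : i ∈ I
  · exact ⟨I.erase i, by simpa [xo, hI] using hi, (Finset.card_erase_add_one hI).symm⟩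
  · simp [xo, hI] at hi

theorem down_ne {v : Finset ι → ℂ} {I : Finset ι} (h : down v I ≠ 0) :
    ∃ J, v J ≠ 0 ∧ J.card = I.card + 1 := by
  obtain ⟨i, -, hi⟩ := Finset.exists_ne_zero_of_sum_ne_zero h
  by_cases hI : i ∈ I
  · simp [dn, hI] at hi
  · exact ⟨insert i I, by simpa [dn, hI] using hi, Finset.card_insert_of_notMem hI⟩

/-- Functions supported on pairs of sets of equal size. -/
def bal (ι : Type*) : Submodule ℂ (W ι) where
  carrier := {w | ∀ p, w p ≠ 0 → p.1.card = p.2.card}
  add_mem' := by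
    intro a b ha hb p hp
    by_cases h : a p = 0
    · exact hb p (by simpa [h] using hp)
    · exact ha p h
  zero_mem' := by intro p hp; simp at hp
  smul_mem' := by
    intro c a ha p hp
    exact ha p fun h => hp (by simp [h])

theorem mem_bal {w : W ι} : w ∈ bal ι ↔ ∀ p, w p ≠ 0 → p.1.card = p.2.card := Iff.rfl

def mask (S : Finset ι × Finset ι → Prop) [DecidablePred S] : W ι →ₗ[ℂ] W ι where
  toFun w p := if S p then w p else 0
  map_add' v w := by funext p; by_cases h : S p <;> simp [h]
  map_smul' c w := by funext p; by_cases h : S p <;> simp [h]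

theorem mask_ne {S : Finset ι × Finset ι → Prop} [DecidablePred S] {w : W ι}
    {p : Finset ι × Finset ι} (h : mask S w p ≠ 0) : S p ∧ w p ≠ 0 := by
  by_cases hS : S p
  · exact ⟨hS, by simpa [mask, hS] using h⟩
  · simp [mask, hS] at h

theorem card_level (m : ℕ) :
    Fintype.card {p : Finset ι × Finset ι // p.1.card = m ∧ p.2.card = m} =
      (Fintype.card ι).choose m ^ 2 := by
  rw [Fintype.card_congr (Equiv.subtypeProdEquivProd (p := fun I : Finset ι => I.card = m)
    (q := fun I : Finset ι => I.card = m)), Fintype.card_prod, Fintype.card_finset_len, sq]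

theorem ker_bound :
    finrank ℂ (bal ι ⊓ LinearMap.ker (UX ∘ₗ UY) : Submodule ℂ (W ι)) ≤
      (Fintype.card ι).choose (Fintype.card ι / 2) ^ 2 := by
  set m := Fintype.card ι / 2 with hm
  let res : W ι →ₗ[ℂ] ({p : Finset ι × Finset ι // p.1.card = m ∧ p.2.card = m} → ℂ) :=
    LinearMap.funLeft ℂ ℂ Subtype.val
  let lo : W ι →ₗ[ℂ] W ι := mask fun p => p.1.card < m
  let hi : W ι →ₗ[ℂ] W ι := mask fun p => m < p.1.card
  let Ψ : W ι →ₗ[ℂ] W ι := lo + LX ∘ₗ LY ∘ₗ hi
  let Φ : W ι →ₗ[ℂ] W ι := (UX ∘ₗ UY) ∘ₗ Ψ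
  set H : Submodule ℂ (W ι) := bal ι ⊓ LinearMap.ker res with hH
  have h1 := rank_nullity res (bal ι)
  rw [← hH] at h1
  have h2 := rank_nullity Φ H
  have h3 := rank_nullity (UX ∘ₗ UY) (bal ι)
  have h4 : finrank ℂ ((bal ι).map res) ≤ (Fintype.card ι).choose m ^ 2 := by
    refine (Submodule.finrank_le _).trans ?_
    rw [Module.finrank_fintype_fun_eq_card, card_level]
  have h5 : finrank ℂ (H.map Φ) ≤ finrank ℂ ((bal ι).map (UX ∘ₗ UY)) := by
    apply Submodule.finrank_mono
    rintro _ ⟨w, hw, rfl⟩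
    refine ⟨Ψ w, ?_, rfl⟩
    apply (bal ι).add_mem
    · intro p hp
      exact hw.1 p (mask_ne hp).2
    · rintro ⟨I, K⟩ hp
      simp only [LinearMap.comp_apply] at hp
      rw [LX_eq] at hp
      obtain ⟨I', hp, hI⟩ := down_ne hp
      rw [LY_eq] at hp
      obtain ⟨K', hp, hK⟩ := down_ne hp
      have := hw.1 _ (mask_ne hp).2
      simp only at this ⊢
      omega
  have h6 : H ⊓ LinearMap.ker Φ = ⊥ := by
    rw [eq_bot_iff]
    rintro w ⟨hw, hΦ⟩
    have hΦ' : UX (UY (lo w)) + UX (UY (LX (LY (hi w)))) = 0 := by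
      have : Φ w = 0 := hΦ
      simpa [Φ, Ψ] using this
    have sA : ∀ I K, UX (UY (lo w)) (I, K) ≠ 0 → I.card ≤ m := by
      intro I K hp
      rw [UX_eq] at hp
      obtain ⟨I', hp, hI⟩ := up_ne hp
      rw [UY_eq] at hp
      obtain ⟨K', hp, hK⟩ := up_ne hp
      have := (mask_ne hp).1
      simp only at this
      omega
    have sB : ∀ I K, UX (UY (LX (LY (hi w)))) (I, K) ≠ 0 → m < I.card := by
      intro I K hp
      rw [UX_eq] at hp
      obtain ⟨I', hp, hI⟩ := up_ne hp
      rw [UY_eq] at hp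
      obtain ⟨K', hp, hK⟩ := up_ne hp
      rw [LX_eq] at hp
      obtain ⟨I'', hp, hI'⟩ := down_ne hp
      rw [LY_eq] at hp
      obtain ⟨K'', hp, hK'⟩ := down_ne hp
      have := (mask_ne hp).1
      simp only at this
      omega
    have zA : ∀ I K, UX (UY (lo w)) (I, K) = 0 := by
      intro I K
      by_contra h
      have h' : UX (UY (LX (LY (hi w)))) (I, K) ≠ 0 := by
        intro h0
        have := congrFun hΦ' (I, K)
        rw [Pi.add_apply, h0, add_zero] at this
        exact h this
      have := sA I K h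
      have := sB I K h'
      omega
    have zB : ∀ I K, UX (LX (UY (LY (hi w)))) (I, K) = 0 := by
      intro I K
      have := congrFun hΦ' (I, K)
      rw [Pi.add_apply, zA, zero_add, UY_LX] at this
      exact this
    have a1 : ∀ I K, UY (lo w) (I, K) = 0 := by
      intro I K
      refine up_inj (fun J => UY (lo w) (J, K)) ?_ (fun J => by rw [← UX_eq, zA]) I
      intro J hp
      rw [UY_eq] at hp
      obtain ⟨K', hp, hK⟩ := up_ne hp
      have := (mask_ne hp).1
      simp only at this
      omega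
    have a2 : ∀ I K, lo w (I, K) = 0 := by
      intro I K
      refine up_inj (fun J => lo w (I, J)) ?_ (fun J => by rw [← UY_eq, a1]) K
      intro J hp
      have h1 := (mask_ne hp).1
      have h2 := hw.1 _ (mask_ne hp).2
      simp only at h1 h2
      omega
    have b1 : ∀ I K, UY (LY (hi w)) (I, K) = 0 := by
      intro I K
      refine updown_inj (fun J => UY (LY (hi w)) (J, K)) ?_ (fun J => ?_) I
      · intro J hp
        rw [UY_eq] at hp
        obtain ⟨K', hp, hK⟩ := up_ne hp
        rw [LY_eq] at hp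
        obtain ⟨K'', hp, hK'⟩ := down_ne hp
        have := (mask_ne hp).1
        simp only at this
        omega
      · have := zB J K
        rw [UX_eq] at this
        simp only [LX_eq] at this
        exact this
    have b2 : ∀ I K, hi w (I, K) = 0 := by
      intro I K
      refine updown_inj (fun J => hi w (I, J)) ?_ (fun J => ?_) K
      · intro J hp
        have h1 := (mask_ne hp).1
        have h2 := hw.1 _ (mask_ne hp).2
        simp only at h1 h2
        omega
      · have := b1 I J
        rw [UY_eq] at this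
        simp only [LY_eq] at this
        exact this
    rw [Submodule.mem_bot]
    funext ⟨I, K⟩
    by_contra hne
    have hb := hw.1 _ hne
    simp only at hb
    rcases lt_trichotomy I.card m with h | h | h
    · exact hne (by simpa [lo, mask, h] using a2 I K)
    · have : res w = 0 := hw.2
      exact hne (congrFun this ⟨(I, K), h, hb ▸ h⟩)
    · exact hne (by simpa [hi, mask, h] using b2 I K)
  rw [h6, finrank_bot] at h2
  omega

end Pool.Agent.Lib.MP_8a5253_lc
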