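import Mathlib

namespace Pool.Agent.Lib.MP_8a5253_lc

open Finset MvPolynomial

section

variable {σ : Type*} [DecidableEq σ]

noncomputable def Dl (l : List σ) (Q : MvPolynomial σ ℂ) : MvPolynomial σ ℂ :=
  l.foldr (fun e Q => pderiv e Q) Q

omit [DecidableEq σ] in
theorem Dl_sum {P : Type*} (s : Finset P) (l : List σ) (Q : P → MvPolynomial σ ℂ) :
    Dl l (∑ p ∈ s, Q p) = ∑ p ∈ s, Dl l (Q p) := by
  induction l with
  | nil => rfl
  | cons e l ih =>
    change pderiv e (Dl l _) = _
    rw [ih, map_sum]
    rfl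

theorem Dl_pow [Fintype σ] (a : σ → ℂ) (m : ℕ) (l : List σ) :
    Dl l ((∑ e, C (a e) * X e) ^ m) =
      C ((m.descFactorial l.length : ℂ) * (l.map a).prod) *
        (∑ e, C (a e) * X e) ^ (m - l.length) := by
  induction l with
  | nil => simp [Dl]
  | cons e l ih =>
    change pderiv e (Dl l _) = _
    have h1 : pderiv e (∑ f, C (a f) * X f : MvPolynomial σ ℂ) = C (a e) := by
      simp [pderiv_X, Pi.single_apply]
    rw [ih, pderiv_C_mul, Derivation.leibniz_pow, h1]
    simp only [List.length_cons, List.map_cons, List.prod_cons, Nat.descFactorial_succ,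
      Nat.cast_mul, map_mul, smul_eq_mul, nsmul_eq_mul, map_natCast, Nat.sub_sub]
    ring

theorem pderiv_prod_zero (e : σ) (F : Finset σ) (h : e ∉ F) :
    pderiv e (∏ f ∈ F, X f : MvPolynomial σ ℂ) = 0 := by
  induction F using Finset.induction_on with
  | empty => simp
  | insert f F hf ih =>
    rw [Finset.mem_insert, not_or] at h
    rw [Finset.prod_insert hf, Derivation.leibniz, ih h.2, pderiv_X_of_ne (Ne.symm h.1)]
    simp

theorem pderiv_prod (e : σ) (F : Finset σ) :
    pderiv e (∏ f ∈ F, X f : MvPolynomial σ ℂ) =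
      if e ∈ F then ∏ f ∈ F.erase e, X f else 0 := by
  by_cases h : e ∈ F
  · rw [if_pos h, ← Finset.mul_prod_erase F _ h, Derivation.leibniz,
      pderiv_prod_zero e _ (Finset.notMem_erase e F), pderiv_X_self]
    simp
  · rw [if_neg h, pderiv_prod_zero e F h]

theorem Dl_prod (F : Finset σ) (l : List σ) :
    Dl l (∏ f ∈ F, X f : MvPolynomial σ ℂ) =
      if l.Nodup ∧ ∀ e ∈ l, e ∈ F then ∏ f ∈ F \ l.toFinset, X f else 0 := by
  induction l with
  | nil => simp [Dl]
  | cons e l ih =>
    change pderiv e (Dl l _) = _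
    rw [ih]
    by_cases h : l.Nodup ∧ ∀ e ∈ l, e ∈ F
    · rw [if_pos h, pderiv_prod]
      by_cases h' : e ∈ F \ l.toFinset
      · have h2 := h'
        rw [Finset.mem_sdiff, List.mem_toFinset] at h2
        rw [if_pos h', if_pos]
        · congr 1
          ext f
          simp only [Finset.mem_erase, Finset.mem_sdiff, List.mem_toFinset, List.mem_cons]
          tauto
        · refine ⟨List.nodup_cons.2 ⟨h2.2, h.1⟩, ?_⟩
          intro f hf
          rcases List.mem_cons.1 hf with rfl | hf
          · exact h2.1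
          · exact h.2 f hf
      · rw [if_neg h', if_neg]
        rintro ⟨h1, h2⟩
        apply h'
        rw [Finset.mem_sdiff, List.mem_toFinset]
        exact ⟨h2 e (by simp), (List.nodup_cons.1 h1).1⟩
    · rw [if_neg h, map_zero, if_neg]
      rintro ⟨h1, h2⟩
      exact h ⟨(List.nodup_cons.1 h1).2, fun f hf => h2 f (by simp [hf])⟩

end

variable {ι : Type*} [Fintype ι] [DecidableEq ι]

theorem count_perm (l : List (ι × ι)) (hl : l.length = Fintype.card ι) :
    (∑ s : Equiv.Perm ι, if l.Nodup ∧ ∀ e ∈ l, s e.2 = e.1 then (1 : ℂ) else 0) =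
      if (l.map Prod.fst).Nodup ∧ (l.map Prod.snd).Nodup then 1 else 0 := by
  by_cases h : (l.map Prod.fst).Nodup ∧ (l.map Prod.snd).Nodup
  · rw [if_pos h]
    have hsurj : ∀ j : ι, ∃ e ∈ l, e.2 = j := by
      intro j
      have hc : (l.map Prod.snd).toFinset = univ := by
        apply Finset.eq_univ_of_card
        rw [List.toFinset_card_of_nodup h.2, List.length_map, hl]
      have : j ∈ (l.map Prod.snd).toFinset := hc ▸ mem_univ j
      simpa using this
    choose g hg hg2 using hsurj
    have hinj : Function.Injective fun j => (g j).1 := by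
      intro j k hjk
      have := List.inj_on_of_nodup_map h.1 (hg j) (hg k) hjk
      rw [← hg2 j, ← hg2 k, this]
    let s : Equiv.Perm ι := Equiv.ofBijective _ (Finite.injective_iff_bijective.1 hinj)
    rw [Finset.sum_eq_single s]
    · rw [if_pos]
      refine ⟨List.Nodup.of_map _ h.1, fun e he => ?_⟩
      have := List.inj_on_of_nodup_map h.2 (hg e.2) he (hg2 e.2)
      change (g e.2).1 = e.1
      rw [this]
    · intro s' _ hs'
      rw [if_neg]
      rintro ⟨-, h2⟩
      apply hs'
      ext j
      have := h2 _ (hg j)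
      rw [hg2] at this
      exact this
    · simp
  · rw [if_neg h]
    apply Finset.sum_eq_zero
    intro s _
    rw [if_neg]
    rintro ⟨h1, h2⟩
    apply h
    constructor
    · apply List.Nodup.map_on _ h1
      intro x hx y hy hxy
      refine Prod.ext hxy (s.injective ?_)
      rw [h2 x hx, h2 y hy, hxy]
    · apply List.Nodup.map_on _ h1
      intro x hx y hy hxy
      refine Prod.ext ?_ hxy
      rw [← h2 x hx, ← h2 y hy, hxy]

theorem polar {P : Type*} [Fintype P] (a : P → ι × ι → ℂ)
    (h : (Matrix.of fun i j => (X (i, j) : MvPolynomial (ι × ι) ℂ)).permanent =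
      ∑ p, (∑ e, C (a p e) * X e) ^ Fintype.card ι)
    (l : List (ι × ι)) (hl : l.length = Fintype.card ι) :
    ((Fintype.card ι).factorial : ℂ) * ∑ p, (l.map (a p)).prod =
      if (l.map Prod.fst).Nodup ∧ (l.map Prod.snd).Nodup then 1 else 0 := by
  have h1 := congrArg (Dl l) h
  rw [Matrix.permanent, Dl_sum, Dl_sum] at h1
  simp only [Dl_pow, hl, Nat.sub_self, pow_zero, mul_one, Nat.descFactorial_self] at h1
  rw [← map_sum, ← Finset.mul_sum] at h1
  rw [← count_perm l hl]
  apply C_injective (ι × ι) ℂ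
  rw [← h1, map_sum]
  apply Finset.sum_congr rfl
  intro s _
  have hinj : Function.Injective fun i : ι => (s i, i) := fun i j hij => congrArg Prod.snd hij
  have h2 : (∏ i, Matrix.of (fun i j => (X (i, j) : MvPolynomial (ι × ι) ℂ)) (s i) i) =
      ∏ f ∈ univ.image fun i : ι => (s i, i), X f := by
    rw [Finset.prod_image fun i _ j _ hij => hinj hij]
    rfl
  have h3 : ∀ e : ι × ι, e ∈ (univ.image fun i : ι => (s i, i)) ↔ s e.2 = e.1 := by
    rintro ⟨i, j⟩
    simp only [Finset.mem_image, mem_univ, true_and, Prod.mk.injEq]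
    constructor
    · rintro ⟨k, h1, rfl⟩; exact h1
    · intro h1; exact ⟨j, h1, rfl⟩
  rw [h2, Dl_prod]
  simp only [h3]
  by_cases hc : l.Nodup ∧ ∀ e ∈ l, s e.2 = e.1
  · rw [if_pos hc, if_pos hc]
    have : (univ.image fun i : ι => (s i, i)) \ l.toFinset = ∅ := by
      rw [Finset.sdiff_eq_empty_iff_subset]
      apply Finset.subset_of_eq
      symm
      apply Finset.eq_of_subset_of_card_le
      · intro e he
        exact (h3 e).2 (hc.2 e (List.mem_toFinset.1 he))
      · rw [Finset.card_image_of_injective _ hinj, List.toFinset_card_of_nodup hc.1, hl,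
          Finset.card_univ]
    rw [this]
    simp
  · rw [if_neg hc, if_neg hc, map_zero]

end Pool.Agent.Lib.MP_8a5253_lc
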