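import Mathlib
import Pool.Agent.Lib.MP_8a5253_lc.Pairs
import Pool.Agent.Lib.MP_8a5253_lc.Polar

namespace Pool.Agent.Lib.MP_8a5253_lc

open Module Finset

set_option linter.unusedSectionVars false

variable {ι : Type*} [Fintype ι] [DecidableEq ι] {P : Type*} [Fintype P] {N : ℕ}

abbrev V (P : Type*) (N : ℕ) := P → Fin (N + 1) → ℂ

def sh : V P N →ₗ[ℂ] V P N where
  toFun ρ p k := if h : 0 < k.val then ρ p ⟨k.val - 1, by omega⟩ else 0
  map_add' v w := by
    funext p k; simp only [Pi.add_apply]; split_ifs <;> simp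
  map_smul' c w := by
    funext p k; simp only [Pi.smul_apply, RingHom.id_apply]; split_ifs <;> simp

def mul (c : P → ℂ) : V P N →ₗ[ℂ] V P N where
  toFun ρ p k := c p * ρ p k
  map_add' v w := by funext p k; simp [mul_add]
  map_smul' d w := by funext p k; simp [mul_left_comm]

def top : V P N →ₗ[ℂ] V P N where
  toFun ρ p k := if k = Fin.last N then ρ p k else 0
  map_add' v w := by funext p k; by_cases h : k = Fin.last N <;> simp [h]
  map_smul' c w := by funext p k; by_cases h : k = Fin.last N <;> simp [h]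

theorem sh_apply (ρ : V P N) (p : P) (k : Fin (N + 1)) :
    sh ρ p k = if h : 0 < k.val then ρ p ⟨k.val - 1, by omega⟩ else 0 := rfl

theorem mul_apply' (c : P → ℂ) (ρ : V P N) (p : P) (k : Fin (N + 1)) :
    mul c ρ p k = c p * ρ p k := rfl

theorem top_apply (ρ : V P N) (p : P) (k : Fin (N + 1)) :
    top ρ p k = if k = Fin.last N then ρ p k else 0 := rfl

theorem mul_sh (c : P → ℂ) (ρ : V P N) : mul c (sh ρ) = sh (mul c ρ) := by
  funext p k
  by_cases h : 0 < k.val <;> simp [sh_apply, mul_apply', h]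

theorem mul_top (c : P → ℂ) (ρ : V P N) : mul c (top ρ) = top (mul c ρ) := by
  funext p k
  by_cases h : k = Fin.last N <;> simp [top_apply, mul_apply', h]

theorem mul_mul (c d : P → ℂ) (ρ : V P N) : mul c (mul d ρ) = mul d (mul c ρ) := by
  funext p k
  simp [mul_apply', mul_left_comm]

theorem mul_sum {κ : Type*} (s : Finset κ) (c : κ → P → ℂ) (ρ : V P N) :
    mul (fun p => ∑ j ∈ s, c j p) ρ = ∑ j ∈ s, mul (c j) ρ := by
  funext p k
  simp [mul_apply', Finset.sum_mul, Finset.sum_apply]

theorem sh_zero {ρ : V P N} {p : P} (h : sh ρ p = 0) (k : Fin (N + 1)) (hk : k ≠ Fin.last N) :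
    ρ p k = 0 := by
  have hk' : k.val < N := Fin.val_lt_last hk
  have := congrFun h ⟨k.val + 1, by omega⟩
  simpa [sh_apply] using this

variable (a : P → ι × ι → ℂ)

def TT (e : ι × ι) : V P N × W ι →ₗ[ℂ] V P N × W ι :=
  LinearMap.prodMap (sh ∘ₗ mul fun p => a p e) (XX e.1 ∘ₗ YY e.2)

def start : V P N × W ι :=
  (fun _ k => if k.val = 0 then 1 else 0, fun q => if q = (∅, ∅) then 1 else 0)

def act (l : List (ι × ι)) (g : V P N × W ι) : V P N × W ι := l.foldr (fun e g => TT a e g) g

theorem TT_fst (e : ι × ι) (g : V P N × W ι) :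
    (TT a e g).1 = sh (mul (fun p => a p e) g.1) := rfl

theorem TT_snd (e : ι × ι) (g : V P N × W ι) : (TT a e g).2 = XX e.1 (YY e.2 g.2) := rfl

theorem act_cons (e : ι × ι) (l : List (ι × ι)) (g : V P N × W ι) :
    act a (e :: l) g = TT a e (act a l g) := rfl

def GG : Submodule ℂ (V P N × W ι) := Submodule.span ℂ (Set.range fun l => act a l start)

theorem TT_mem (e : ι × ι) {g : V P N × W ι} (hg : g ∈ GG a) : TT a e g ∈ GG a := by
  have : (GG a : Submodule ℂ (V P N × W ι)) ≤ (GG a).comap (TT a e) := by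
    apply Submodule.span_le.2
    rintro _ ⟨l, rfl⟩
    exact Submodule.subset_span ⟨e :: l, rfl⟩
  exact this hg

theorem act_mem (l : List (ι × ι)) {g : V P N × W ι} (hg : g ∈ GG a) : act a l g ∈ GG a := by
  induction l with
  | nil => exact hg
  | cons e l ih => exact TT_mem a e ih

theorem act_fst (l : List (ι × ι)) (p : P) (k : Fin (N + 1)) :
    (act a l (start : V P N × W ι)).1 p k =
      if k.val = l.length then (l.map (a p)).prod else 0 := by
  induction l generalizing k with
  | nil => simp [act, start]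
  | cons e l ih =>
    rw [act_cons, TT_fst, sh_apply]
    by_cases h : 0 < k.val
    · rw [dif_pos h, mul_apply', ih]
      by_cases h' : k.val - 1 = l.length
      · rw [if_pos h', if_pos (by simp; omega)]; simp
      · rw [if_neg h', if_neg (by simp; omega)]; simp
    · rw [dif_neg h, if_neg (by simp; omega)]

theorem act_fst_zero (l : List (ι × ι)) {g : V P N × W ι} (hg : g.1 = 0) :
    (act a l g).1 = 0 := by
  induction l with
  | nil => exact hg
  | cons e l ih =>
    rw [act_cons, TT_fst, ih]; simp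

theorem act_snd (l : List (ι × ι)) (g : V P N × W ι) (I K : Finset ι) :
    (act a l g).2 (I, K) =
      if ((l.map Prod.fst).Nodup ∧ ∀ i ∈ l.map Prod.fst, i ∈ I) ∧
          ((l.map Prod.snd).Nodup ∧ ∀ j ∈ l.map Prod.snd, j ∈ K) then
        g.2 (I \ (l.map Prod.fst).toFinset, K \ (l.map Prod.snd).toFinset) else 0 := by
  have key : ∀ (i : ι) (u : List ι) (I : Finset ι),
      ((i :: u).Nodup ∧ ∀ x ∈ i :: u, x ∈ I) ↔ i ∈ I ∧ (u.Nodup ∧ ∀ x ∈ u, x ∈ I.erase i) := by
    intro i u I
    simp only [List.nodup_cons, List.mem_cons, forall_eq_or_imp, Finset.mem_erase]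
    constructor
    · rintro ⟨⟨h1, h2⟩, h3, h4⟩
      exact ⟨h3, h2, fun x hx => ⟨fun h => h1 (h ▸ hx), h4 x hx⟩⟩
    · rintro ⟨h1, h2, h3⟩
      exact ⟨⟨fun h => (h3 i h).1 rfl, h2⟩, h1, fun x hx => (h3 x hx).2⟩
  have key2 : ∀ (i : ι) (u : List ι) (I : Finset ι),
      I \ (i :: u).toFinset = I.erase i \ u.toFinset := by
    intro i u I
    ext x
    simp only [Finset.mem_sdiff, List.mem_toFinset, List.mem_cons, Finset.mem_erase]
    tauto
  induction l generalizing I K with
  | nil => simp [act]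
  | cons e l ih =>
    rw [act_cons, TT_snd, XX_apply, YY_apply, ih, List.map_cons, List.map_cons, key2, key2]
    simp only [key]
    by_cases h1 : e.1 ∈ I <;> by_cases h2 : e.2 ∈ K <;> simp only [h1, h2, true_and, false_and,
      and_false, if_true, if_false]

theorem match_list (I K : Finset ι) (h : I.card = K.card) :
    ∃ l : List (ι × ι), l.map Prod.fst = I.toList ∧ l.map Prod.snd = K.toList :=
  ⟨I.toList.zip K.toList, List.map_fst_zip (by simp [h]), List.map_snd_zip (by simp [h])⟩

theorem start_snd (l : List (ι × ι)) (I K : Finset ι) :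
    (act a l (start : V P N × W ι)).2 (I, K) =
      if ((l.map Prod.fst).Nodup ∧ (l.map Prod.snd).Nodup) ∧
        I = (l.map Prod.fst).toFinset ∧ K = (l.map Prod.snd).toFinset then 1 else 0 := by
  rw [act_snd]
  simp only [start, Prod.mk.injEq, Finset.sdiff_eq_empty_iff_subset, ← ite_and]
  congr 1
  apply propext
  constructor
  · rintro ⟨⟨⟨h1, h2⟩, h3, h4⟩, h5, h6⟩
    exact ⟨⟨h1, h3⟩, Finset.Subset.antisymm h5 fun x hx => h2 x (List.mem_toFinset.1 hx),
      Finset.Subset.antisymm h6 fun x hx => h4 x (List.mem_toFinset.1 hx)⟩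
  · rintro ⟨⟨h1, h2⟩, rfl, rfl⟩
    exact ⟨⟨⟨h1, fun x hx => List.mem_toFinset.2 hx⟩, h2, fun x hx => List.mem_toFinset.2 hx⟩,
      Finset.Subset.refl _, Finset.Subset.refl _⟩

theorem snd_bal {g : V P N × W ι} (hg : g ∈ GG a) : g.2 ∈ bal ι := by
  have : (GG a : Submodule ℂ (V P N × W ι)) ≤ (bal ι).comap (LinearMap.snd ℂ _ _) := by
    apply Submodule.span_le.2
    rintro _ ⟨l, rfl⟩ ⟨I, K⟩ hp
    have hp' : (act a l (start : V P N × W ι)).2 (I, K) ≠ 0 := hp
    rw [start_snd] at hp'
    have := (ite_ne_right_iff.1 hp').1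
    obtain ⟨⟨h1, h2⟩, rfl, rfl⟩ := this
    simp only [List.toFinset_card_of_nodup h1, List.toFinset_card_of_nodup h2, List.length_map]
  exact this hg

theorem single_mem (I K : Finset ι) (h : I.card = K.card) :
    ∃ g ∈ (GG a : Submodule ℂ (V P N × W ι)), g.2 = Pi.single (I, K) 1 := by
  obtain ⟨l, h1, h2⟩ := match_list I K h
  refine ⟨act a l start, Submodule.subset_span ⟨l, rfl⟩, ?_⟩
  funext ⟨I', K'⟩
  rw [start_snd, h1, h2, Pi.single_apply]
  simp [Finset.nodup_toList]

section polar

variable (hp : ∀ l : List (ι × ι), l.length = Fintype.card ι →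
  ((Fintype.card ι).factorial : ℂ) * ∑ p, (l.map (a p)).prod =
    if (l.map Prod.fst).Nodup ∧ (l.map Prod.snd).Nodup then 1 else 0)

include hp

theorem functional {g : V P (Fintype.card ι) × W ι} (hg : g ∈ GG a) :
    ((Fintype.card ι).factorial : ℂ) * ∑ p, g.1 p (Fin.last _) = g.2 (univ, univ) := by
  induction hg using Submodule.span_induction with
  | mem x hx =>
    obtain ⟨l, rfl⟩ := hx
    simp only [act_fst, start_snd, Fin.val_last]
    by_cases hl : Fintype.card ι = l.length
    · simp only [if_pos hl]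
      rw [hp l hl.symm]
      congr 1
      apply propext
      constructor
      · rintro ⟨h1, h2⟩
        refine ⟨⟨h1, h2⟩, (Finset.eq_univ_of_card _ ?_).symm, (Finset.eq_univ_of_card _ ?_).symm⟩
        · rw [List.toFinset_card_of_nodup h1, List.length_map, hl]
        · rw [List.toFinset_card_of_nodup h2, List.length_map, hl]
      · exact fun h => h.1
    · simp only [if_neg hl]
      rw [if_neg]
      · simp
      · rintro ⟨⟨h1, -⟩, h2, -⟩
        apply hl
        have := congrArg Finset.card h2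
        rwa [List.toFinset_card_of_nodup h1, List.length_map, Finset.card_univ] at this
  | zero => simp
  | add x y _ _ hx hy =>
    simp only [Prod.fst_add, Prod.snd_add, Pi.add_apply, Finset.sum_add_distrib, mul_add, hx, hy]
  | smul c x _ hx =>
    simp only [Prod.smul_fst, Prod.smul_snd, Pi.smul_apply, smul_eq_mul, ← Finset.mul_sum, ← hx]
    ring

theorem graph {g : V P (Fintype.card ι) × W ι} (hg : g ∈ GG a) (h0 : g.1 = 0) : g.2 = 0 := by
  funext ⟨I, K⟩
  by_contra hne
  have hb : I.card = K.card := snd_bal a hg (I, K) hne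
  obtain ⟨l, h1, h2⟩ := match_list Iᶜ Kᶜ (by rw [Finset.card_compl, Finset.card_compl, hb])
  have h3 := functional a hp (act_mem a l hg)
  rw [act_fst_zero a l h0, act_snd, h1, h2] at h3
  simp [Finset.nodup_toList] at h3
  exact hne h3.symm

end polar

/-- Elements of `GG` whose first part vanishes at the points killed by all `(s, s)`, `s ∈ F`. -/
def GF (F : Finset ι) : Submodule ℂ (V P N × W ι) where
  carrier := {g | g ∈ GG a ∧ ∀ p, (∀ s ∈ F, a p (s, s) = 0) → g.1 p = 0}
  add_mem' := by
    rintro x y ⟨hx, hx'⟩ ⟨hy, hy'⟩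
    exact ⟨(GG a).add_mem hx hy, fun p hp => by simp [hx' p hp, hy' p hp]⟩
  zero_mem' := ⟨(GG a).zero_mem, fun _ _ => rfl⟩
  smul_mem' := by
    rintro c x ⟨hx, hx'⟩
    exact ⟨(GG a).smul_mem c hx, fun p hp => by simp [hx' p hp]⟩

theorem TT_GF (F : Finset ι) (e : ι × ι) {g : V P N × W ι} (hg : g ∈ GF a F) :
    TT a e g ∈ GF a F := by
  refine ⟨TT_mem a e hg.1, fun p hp => ?_⟩
  funext k
  rw [TT_fst]
  simp [sh_apply, mul_apply', hg.2 p hp]

theorem GF_step (F : Finset ι) (s : ι) [DecidablePred fun p => ∀ s ∈ F, a p (s, s) = 0] :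
    finrank ℂ ((GF a (insert s F) : Submodule ℂ (V P N × W ι)).map (LinearMap.snd ℂ _ _)) ≤
      finrank ℂ ((GF a F : Submodule ℂ (V P N × W ι)).map (LinearMap.snd ℂ _ _)) +
      2 * (Fintype.card ι).choose (Fintype.card ι / 2) ^ 2 +
      (univ.filter fun p => (∀ s ∈ F, a p (s, s) = 0) ∧ a p (s, s) ≠ 0).card := by
  classical
  let L : P → Prop := fun p => (∀ s ∈ F, a p (s, s) = 0) ∧ a p (s, s) ≠ 0
  let χ : P → ℂ := fun p => if L p then 1 else 0
  let emb : ({p // L p} → ℂ) →ₗ[ℂ] V P N :=
    { toFun := fun c p k => if h : L p then (if k = Fin.last N then c ⟨p, h⟩ else 0) else 0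
      map_add' := by
        intro v w; funext p k
        by_cases h : L p <;> by_cases h' : k = Fin.last N <;> simp [h, h']
      map_smul' := by
        intro c w; funext p k
        by_cases h : L p <;> by_cases h' : k = Fin.last N <;> simp [h, h'] }
  have hD : finrank ℂ (LinearMap.range emb) ≤ (univ.filter L).card := by
    refine (LinearMap.finrank_range_le emb).trans ?_
    rw [Module.finrank_fintype_fun_eq_card, Fintype.card_subtype]
  have hmem : ∀ ρ : V P N, (∀ p, ¬ L p → ρ p = 0) → top ρ ∈ LinearMap.range emb := by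
    intro ρ hρ
    refine ⟨fun p => ρ p.1 (Fin.last N), ?_⟩
    funext p k
    by_cases h : L p
    · by_cases h' : k = Fin.last N <;> simp [emb, top_apply, h, h']
    · simp [emb, top_apply, h, hρ p h]
  have htop : ∀ ρ : V P N, (∀ p, ¬ L p → ρ p = 0) → sh (mul (fun p => a p (s, s)) ρ) = 0 →
      top ρ = ρ := by
    intro ρ hρ h
    funext p k
    rw [top_apply]
    by_cases h' : k = Fin.last N
    · rw [if_pos h']
    · rw [if_neg h']
      by_cases hL : L p
      · have := sh_zero (congrFun h p) k h'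
        rw [mul_apply'] at this
        exact ((mul_eq_zero.1 this).resolve_left hL.2).symm
      · rw [hρ p hL]; rfl
  have hχ : ∀ (ρ : V P N) p, ¬ L p → mul χ ρ p = 0 := by
    intro ρ p h
    funext k
    simp [mul_apply', χ, h]
  have hsum : ∀ (G : Submodule ℂ (V P N × W ι)) (_ : ∀ e g, g ∈ G → TT a e g ∈ G)
      {κ : Type _} [Fintype κ] (f : κ → ι × ι), ∀ g ∈ G, (∑ j : κ, TT a (f j)) g ∈ G := by
    intro G hG κ _ f g hg
    rw [LinearMap.sum_apply]
    exact G.sum_mem fun j _ => hG _ _ hg
  have hsum2 : ∀ (G : Submodule ℂ (V P N × W ι)) (_ : ∀ e g, g ∈ G → TT a e g ∈ G),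
      ∀ g ∈ G, (∑ i, ∑ j, TT a (i, j)) g ∈ G := by
    intro G hG g hg
    rw [LinearMap.sum_apply]
    exact G.sum_mem fun i _ => hsum G hG _ g hg
  have main := layer (TT a (s, s)) (∑ j, TT a (s, j)) (∑ i, TT a (i, s)) (∑ i, ∑ j, TT a (i, j))
    (mul χ ∘ₗ LinearMap.fst ℂ (V P N) (W ι)) (LinearMap.snd ℂ (V P N) (W ι))
    (GF a F) (GF a (insert s F)) (XX s ∘ₗ YY s) (XX s ∘ₗ UY) (UX ∘ₗ YY s) (UX ∘ₗ UY) (bal ι)
    (sh ∘ₗ mul fun p => a p (s, s)) (sh ∘ₗ mul fun p => ∑ i, ∑ j, a p (i, j)) sh
    (mul fun p => ∑ j, a p (s, j)) (mul fun p => ∑ i, a p (i, s)) top (LinearMap.range emb)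
    (fun g hg => ⟨hg.1, fun p hp => hg.2 p fun t ht => hp t (Finset.mem_insert_of_mem ht)⟩)
    (by
      intro g hg h
      refine ⟨hg.1, fun p hp => ?_⟩
      by_cases hs : a p (s, s) = 0
      · apply hg.2 p
        intro t ht
        rcases Finset.mem_insert.1 ht with rfl | ht
        · exact hs
        · exact hp t ht
      · have hL : L p := ⟨hp, hs⟩
        funext k
        have := congrFun (congrFun h p) k
        simpa [mul_apply', χ, hL] using this)
    (fun g hg => TT_GF a _ _ hg)
    (hsum _ (fun e g => TT_GF a _ e) _) (hsum _ (fun e g => TT_GF a _ e) _)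
    (hsum2 _ (fun e g => TT_GF a _ e))
    (hsum _ (fun e g => TT_GF a _ e) _) (hsum _ (fun e g => TT_GF a _ e) _)
    (hsum2 _ (fun e g => TT_GF a _ e))
    (by
      intro g hg
      funext p k
      by_cases hL : L p
      · simp [mul_apply', hg.2 p hL.1]
      · simp [mul_apply', χ, hL])
    (fun g => rfl)
    (fun g => by simp [TT, UY_apply])
    (fun g => by simp [TT, UX_apply])
    (fun g => by simp [TT, UX_apply, UY_apply]; exact Finset.sum_comm)
    (fun g hg => snd_bal a hg.1)
    (fun w => by simp only [LinearMap.comp_apply, ← XX_UY, XX_XX])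
    (fun w => by simp only [LinearMap.comp_apply, YY_UX, YY_YY, map_zero])
    (fun w => by simp only [LinearMap.comp_apply, XX_UY, XX_UX, UY_UX])
    (fun w => by simp only [LinearMap.comp_apply, XX_UY, YY_UY, XY_comm])
    (fun g => by simp [TT, mul_sh, mul_mul χ])
    (fun g => by simp [TT, mul_sh, mul_mul χ, mul_sum])
    (fun g => by simp [TT, mul_sh, mul_mul χ, mul_sum])
    (fun g => by simp [TT, mul_sh, mul_mul χ, mul_sum])
    (fun v => by simp only [LinearMap.comp_apply, mul_sh]; rw [mul_mul])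
    (fun v => by simp only [LinearMap.comp_apply, mul_sh]; rw [mul_mul])
    (fun v => by simp only [LinearMap.comp_apply, mul_sh]; rw [mul_mul])
    (fun v => by simp only [LinearMap.comp_apply, mul_sh]; rw [mul_mul])
    (fun v => mul_sh _ _) (fun v => mul_sh _ _) (fun v => mul_mul _ _ _)
    (fun v => mul_top _ _) (fun v => mul_top _ _)
    (fun g => hmem _ (hχ _))
    (by
      intro g h hh
      apply htop _ _ hh
      intro p hp
      funext k
      simp [mul_apply', χ, hp])
    (by
      intro g hh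
      have := hmem _ (hχ g.1)
      rwa [htop _ (hχ g.1) hh] at this)
  have hk := ker_bound (ι := ι)
  have hc : (univ.filter L).card =
      (univ.filter fun p => (∀ s ∈ F, a p (s, s) = 0) ∧ a p (s, s) ≠ 0).card := by
    congr 1
  omega

theorem GF_lower (F : Finset ι) :
    (univ.filter fun q : Finset ι × Finset ι =>
        q.1.card = q.2.card ∧ ∃ s ∈ F, s ∈ q.1 ∧ s ∈ q.2).card ≤
      finrank ℂ ((GF a F : Submodule ℂ (V P N × W ι)).map (LinearMap.snd ℂ _ _)) := by
  set S := univ.filter fun q : Finset ι × Finset ι =>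
    q.1.card = q.2.card ∧ ∃ s ∈ F, s ∈ q.1 ∧ s ∈ q.2 with hS
  have hli : LinearIndependent ℂ fun q : S => (Pi.single q.1 1 : W ι) :=
    (Pi.linearIndependent_single_one (Finset ι × Finset ι) ℂ).comp (fun q : S => q.1)
      Subtype.val_injective
  rw [← Fintype.card_coe, ← finrank_span_eq_card hli]
  apply Submodule.finrank_mono
  apply Submodule.span_le.2
  rintro _ ⟨⟨⟨I, K⟩, hq⟩, rfl⟩
  obtain ⟨h1, s, hs, hI, hK⟩ := (Finset.mem_filter.1 hq).2
  simp only at h1 hI hK
  obtain ⟨g, hg, hg2⟩ := single_mem (N := N) a (I.erase s) (K.erase s)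
    (by rw [Finset.card_erase_of_mem hI, Finset.card_erase_of_mem hK, h1])
  refine ⟨TT a (s, s) g, ⟨TT_mem a _ hg, fun p hp => ?_⟩, ?_⟩
  · funext k
    rw [TT_fst]
    simp [sh_apply, mul_apply', hp s hs]
  · change XX s (YY s g.2) = _
    funext ⟨I', K'⟩
    rw [hg2, XX_apply, YY_apply]
    simp only [Pi.single_apply, Prod.mk.injEq, ← ite_and]
    congr 1
    apply propext
    constructor
    · rintro ⟨h1, h2, h3, h4⟩
      exact ⟨by rw [← Finset.insert_erase h1, h3, Finset.insert_erase hI],
        by rw [← Finset.insert_erase h2, h4, Finset.insert_erase hK]⟩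
    · rintro ⟨rfl, rfl⟩
      exact ⟨hI, hK, rfl, rfl⟩

theorem main_bound
    (h : (Matrix.of fun i j => (MvPolynomial.X (i, j) : MvPolynomial (ι × ι) ℂ)).permanent =
      ∑ p, (∑ e, MvPolynomial.C (a p e) * MvPolynomial.X e) ^ Fintype.card ι) (F : Finset ι) :
    (univ.filter fun q : Finset ι × Finset ι =>
        q.1.card = q.2.card ∧ ∃ s ∈ F, s ∈ q.1 ∧ s ∈ q.2).card ≤
      Fintype.card P + 2 * F.card * (Fintype.card ι).choose (Fintype.card ι / 2) ^ 2 := by
  classical
  have key : finrank ℂ ((GF a F : Submodule ℂ (V P (Fintype.card ι) × W ι)).map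
      (LinearMap.snd ℂ _ _)) ≤ (univ.filter fun p => ¬ ∀ s ∈ F, a p (s, s) = 0).card +
      2 * F.card * (Fintype.card ι).choose (Fintype.card ι / 2) ^ 2 := by
    induction F using Finset.induction_on with
    | empty =>
      have : (GF a ∅ : Submodule ℂ (V P (Fintype.card ι) × W ι)).map (LinearMap.snd ℂ _ _) = ⊥ := by
        rw [eq_bot_iff]
        rintro _ ⟨g, hg, rfl⟩
        exact graph a (polar a h) hg.1 (funext fun p => hg.2 p (by simp))
      rw [this, finrank_bot]
      exact Nat.zero_le _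
    | insert s F hs ih =>
      have h1 := GF_step (N := Fintype.card ι) a F s
      have h2 : (univ.filter fun p => ¬ ∀ s ∈ F, a p (s, s) = 0).card +
          (univ.filter fun p => (∀ s ∈ F, a p (s, s) = 0) ∧ a p (s, s) ≠ 0).card ≤
          (univ.filter fun p => ¬ ∀ t ∈ insert s F, a p (t, t) = 0).card := by
        rw [← Finset.card_union_of_disjoint]
        · apply Finset.card_le_card
          intro p hp
          simp only [Finset.mem_union, Finset.mem_filter, mem_univ, true_and,
            Finset.forall_mem_insert] at hp ⊢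
          tauto
        · rw [Finset.disjoint_filter]
          tauto
      rw [Finset.card_insert_of_notMem hs, mul_add, add_mul]
      omega
  have h3 := GF_lower (N := Fintype.card ι) a F
  have h4 : (univ.filter fun p => ¬ ∀ s ∈ F, a p (s, s) = 0).card ≤ Fintype.card P :=
    Finset.card_le_univ _
  omega

end Pool.Agent.Lib.MP_8a5253_lc
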