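import Mathlib
import Pool.Agent.Lib.MP_8a5253_lc.Main

namespace Pool.Agent.Lib.MP_8a5253_lc

open Finset

variable {ι : Type*} [Fintype ι] [DecidableEq ι]

theorem bal_count : (Fintype.card ι).centralBinom ≤
    (univ.filter fun q : Finset ι × Finset ι => q.1.card = q.2.card).card := by
  have h : (Finset.powersetCard (Fintype.card ι) (univ : Finset (ι ⊕ ι))).card =
      (Fintype.card ι).centralBinom := by
    rw [Finset.card_powersetCard, Finset.card_univ, Fintype.card_sum, Nat.centralBinom, two_mul]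
  rw [← h]
  apply Finset.card_le_card_of_injOn fun U => (U.toLeft, U.toRightᶜ)
  · intro U hU
    have h1 := (Finset.mem_powersetCard.1 hU).2
    have h2 := Finset.card_toLeft_add_card_toRight (u := U)
    simp only [Finset.coe_filter, mem_univ, true_and, Set.mem_ofPred_eq, Finset.card_compl]
    omega
  · intro U _ U' _ hU
    simp only [Prod.mk.injEq, compl_inj_iff] at hU
    rw [← Finset.toLeft_disjSum_toRight (u := U), ← Finset.toLeft_disjSum_toRight (u := U'),
      hU.1, hU.2]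

theorem tail_count (F : Finset ι) :
    (univ.filter fun q : Finset ι × Finset ι =>
        q.1.card = q.2.card ∧ ¬ ∃ s ∈ F, s ∈ q.1 ∧ s ∈ q.2).card ≤
      (Fintype.card ι - F.card).centralBinom * 3 ^ F.card := by
  set S := univ.filter fun q : Finset ι × Finset ι =>
    q.1.card = q.2.card ∧ ¬ ∃ s ∈ F, s ∈ q.1 ∧ s ∈ q.2 with hS
  let f : Finset ι × Finset ι → (F → Fin 3) :=
    fun q s => if s.1 ∈ q.1 then 1 else if s.1 ∈ q.2 then 2 else 0
  have h3 : (univ : Finset (F → Fin 3)).card = 3 ^ F.card := by simp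
  rw [← h3]
  apply Finset.card_le_mul_card_image_of_maps_to (f := f) (fun _ _ => mem_univ _)
  intro φ _
  have hdet : ∀ q ∈ S, ∀ q' ∈ S, f q = f q' →
      ∀ s ∈ F, (s ∈ q.1 ↔ s ∈ q'.1) ∧ (s ∈ q.2 ↔ s ∈ q'.2) := by
    intro q hq q' hq' hf s hs
    have h1 := (Finset.mem_filter.1 hq).2.2
    have h2 := (Finset.mem_filter.1 hq').2.2
    push Not at h1 h2
    have h4 := congrFun hf ⟨s, hs⟩
    have h5 := h1 s hs
    have h6 := h2 s hs
    by_cases a1 : s ∈ q.1 <;> by_cases a2 : s ∈ q.2 <;> by_cases a3 : s ∈ q'.1 <;>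
      by_cases a4 : s ∈ q'.2 <;> simp_all [f]
  rcases (S.filter fun q => f q = φ).eq_empty_or_nonempty with h | ⟨q0, hq0⟩
  · rw [h]; exact Nat.zero_le _
  obtain ⟨hq0S, hq0f⟩ := Finset.mem_filter.1 hq0
  set c := (q0.1 \ F).card + (Fᶜ \ q0.2).card with hc
  have hT : (Finset.powersetCard c (Fᶜ.disjSum Fᶜ)).card ≤
      (Fintype.card ι - F.card).centralBinom := by
    rw [Finset.card_powersetCard, Finset.card_disjSum, Finset.card_compl, ← two_mul]
    exact Nat.choose_le_centralBinom _ _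
  refine le_trans ?_ hT
  apply Finset.card_le_card_of_injOn fun q => (q.1 \ F).disjSum (Fᶜ \ q.2)
  · intro q hq
    obtain ⟨hqS, hqf⟩ := Finset.mem_filter.1 hq
    have hd := hdet q hqS q0 hq0S (hqf.trans hq0f.symm)
    rw [Finset.mem_coe, Finset.mem_powersetCard]
    refine ⟨Finset.disjSum_mono ?_ Finset.sdiff_subset, ?_⟩
    · intro x hx
      exact Finset.mem_compl.2 (Finset.mem_sdiff.1 hx).2
    · have e1 : q.1 ∩ F = q0.1 ∩ F := by
        ext s
        simp only [Finset.mem_inter]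
        exact ⟨fun h => ⟨(hd s h.2).1.1 h.1, h.2⟩, fun h => ⟨(hd s h.2).1.2 h.1, h.2⟩⟩
      have e2 : q.2 ∩ F = q0.2 ∩ F := by
        ext s
        simp only [Finset.mem_inter]
        exact ⟨fun h => ⟨(hd s h.2).2.1 h.1, h.2⟩, fun h => ⟨(hd s h.2).2.2 h.1, h.2⟩⟩
      have key : ∀ K : Finset ι, (Fᶜ \ K).card + K.card = Fᶜ.card + (K ∩ F).card := by
        intro K
        have a1 := Finset.card_sdiff_add_card_inter Fᶜ K
        have a2 := Finset.card_sdiff_add_card_inter K F
        have a3 : Fᶜ ∩ K = K \ F := by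
          ext x
          simp only [Finset.mem_inter, Finset.mem_compl, Finset.mem_sdiff]
          tauto
        rw [a3] at a1
        omega
      have b1 := key q.2
      have b2 := key q0.2
      have b3 := Finset.card_sdiff_add_card_inter q.1 F
      have b4 := Finset.card_sdiff_add_card_inter q0.1 F
      have b5 := (Finset.mem_filter.1 hqS).2.1
      have b6 := (Finset.mem_filter.1 hq0S).2.1
      rw [e1] at b3
      rw [e2] at b1
      rw [Finset.card_disjSum]
      omega
  · intro q hq q' hq' hqq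
    obtain ⟨hqS, hqf⟩ := Finset.mem_filter.1 hq
    obtain ⟨hqS', hqf'⟩ := Finset.mem_filter.1 hq'
    have hd := hdet q hqS q' hqS' (hqf.trans hqf'.symm)
    have e1 := congrArg Finset.toLeft hqq
    have e2 := congrArg Finset.toRight hqq
    simp only [Finset.toLeft_disjSum, Finset.toRight_disjSum] at e1 e2
    refine Prod.ext ?_ ?_
    · ext s
      by_cases hs : s ∈ F
      · exact (hd s hs).1
      · have := Finset.ext_iff.1 e1 s
        simpa [hs] using this
    · ext s
      by_cases hs : s ∈ F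
      · exact (hd s hs).2
      · have := Finset.ext_iff.1 e2 s
        simpa [hs, not_iff_not] using this

theorem explicit {P : Type*} [Fintype P] (a : P → ι × ι → ℂ)
    (h : (Matrix.of fun i j => (MvPolynomial.X (i, j) : MvPolynomial (ι × ι) ℂ)).permanent =
      ∑ p, (∑ e, MvPolynomial.C (a p e) * MvPolynomial.X e) ^ Fintype.card ι)
    (s : ℕ) (hs : s ≤ Fintype.card ι) :
    (Fintype.card ι).centralBinom ≤ Fintype.card P +
      2 * s * (Fintype.card ι).choose (Fintype.card ι / 2) ^ 2 +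
      3 ^ s * (Fintype.card ι - s).centralBinom := by
  obtain ⟨F, -, hF⟩ := Finset.exists_subset_card_eq (s := (univ : Finset ι)) (n := s)
    (by simpa using hs)
  have h1 := main_bound a h F
  have h2 := tail_count F
  have h3 := bal_count (ι := ι)
  have h4 := Finset.card_filter_add_card_filter_not
    (s := univ.filter fun q : Finset ι × Finset ι => q.1.card = q.2.card)
    (fun q => ∃ s ∈ F, s ∈ q.1 ∧ s ∈ q.2)
  rw [Finset.filter_filter, Finset.filter_filter] at h4
  rw [hF] at h1 h2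
  rw [mul_comm (3 ^ s)]
  omega

theorem cb_upper (m : ℕ) : m.centralBinom ^ 2 * (2 * m + 1) ≤ 16 ^ m := by
  induction m with
  | zero => simp
  | succ m ih =>
    have h := Nat.succ_mul_centralBinom_succ m
    have h2 : (m + 1) ^ 2 * ((m + 1).centralBinom ^ 2 * (2 * (m + 1) + 1)) ≤
        (m + 1) ^ 2 * 16 ^ (m + 1) := by
      calc (m + 1) ^ 2 * ((m + 1).centralBinom ^ 2 * (2 * (m + 1) + 1))
          = ((m + 1) * (m + 1).centralBinom) ^ 2 * (2 * m + 3) := by ring
        _ = (m.centralBinom ^ 2 * (2 * m + 1)) * (4 * ((2 * m + 1) * (2 * m + 3))) := by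
          rw [h]; ring
        _ ≤ 16 ^ m * (16 * (m + 1) ^ 2) := Nat.mul_le_mul ih (by nlinarith)
        _ = (m + 1) ^ 2 * 16 ^ (m + 1) := by ring
    exact Nat.le_of_mul_le_mul_left h2 (by positivity)

theorem cb_lower (m : ℕ) : 16 ^ m ≤ m.centralBinom ^ 2 * (4 * m + 1) := by
  induction m with
  | zero => simp
  | succ m ih =>
    have h := Nat.succ_mul_centralBinom_succ m
    have h2 : ((m + 1) ^ 2 * (4 * m + 1)) * 16 ^ (m + 1) ≤
        ((m + 1) ^ 2 * (4 * m + 1)) * ((m + 1).centralBinom ^ 2 * (4 * (m + 1) + 1)) := by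
      calc ((m + 1) ^ 2 * (4 * m + 1)) * 16 ^ (m + 1)
          = 16 ^ m * (16 * (m + 1) ^ 2 * (4 * m + 1)) := by ring
        _ ≤ (m.centralBinom ^ 2 * (4 * m + 1)) * (4 * (2 * m + 1) ^ 2 * (4 * m + 5)) :=
          Nat.mul_le_mul ih (by nlinarith)
        _ = (2 * (2 * m + 1) * m.centralBinom) ^ 2 * ((4 * m + 1) * (4 * m + 5)) := by ring
        _ = _ := by rw [← h]; ring
    exact Nat.le_of_mul_le_mul_left h2 (by positivity)

theorem choose_half (n : ℕ) : n.choose (n / 2) ^ 2 * n ≤ 4 ^ n := by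
  rcases Nat.even_or_odd' n with ⟨m, rfl | rfl⟩
  · have h := cb_upper m
    rw [show 2 * m / 2 = m by omega, pow_mul]
    change m.centralBinom ^ 2 * _ ≤ 16 ^ m
    nlinarith
  · have h := cb_upper m
    have h1 : (2 * m + 1).choose m ≤ 2 * m.centralBinom := by
      have := Nat.choose_succ_succ' (2 * m) m
      have h2 := Nat.choose_le_centralBinom m m
      have h3 := Nat.choose_le_centralBinom (m + 1) m
      have h4 : (2 * m + 1).choose (m + 1) = (2 * m + 1).choose m := Nat.choose_symm_half m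
      omega
    rw [show (2 * m + 1) / 2 = m by omega, pow_succ 4, pow_mul]
    calc (2 * m + 1).choose m ^ 2 * (2 * m + 1)
        ≤ (2 * m.centralBinom) ^ 2 * (2 * m + 1) := by gcongr
      _ = m.centralBinom ^ 2 * (2 * m + 1) * 4 := by ring
      _ ≤ 16 ^ m * 4 := by gcongr

theorem cb_ratio (s m : ℕ) (hm : 3 ≤ m) :
    7 ^ s * m.centralBinom ≤ 2 ^ s * (m + s).centralBinom := by
  induction s with
  | zero => simp
  | succ s ih =>
    have h := Nat.succ_mul_centralBinom_succ (m + s)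
    have h2 : 7 * (m + s).centralBinom ≤ 2 * (m + s + 1).centralBinom := by
      apply Nat.le_of_mul_le_mul_left (c := m + s + 1) _ (by omega)
      calc (m + s + 1) * (7 * (m + s).centralBinom)
          = (7 * (m + s + 1)) * (m + s).centralBinom := by ring
        _ ≤ (4 * (2 * (m + s) + 1)) * (m + s).centralBinom :=
          Nat.mul_le_mul_right _ (by omega)
        _ = 2 * ((m + s + 1) * (m + s + 1).centralBinom) := by rw [h]; ring
        _ = _ := by ring
    calc 7 ^ (s + 1) * m.centralBinom = 7 * (7 ^ s * m.centralBinom) := by ring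
      _ ≤ 7 * (2 ^ s * (m + s).centralBinom) := Nat.mul_le_mul_left _ ih
      _ = 2 ^ s * (7 * (m + s).centralBinom) := by ring
      _ ≤ 2 ^ s * (2 * (m + s + 1).centralBinom) := Nat.mul_le_mul_left _ h2
      _ = _ := by rw [← add_assoc]; ring

theorem asymp (ε : ℝ) (hε : 0 < ε) : ∃ s N : ℕ, ∀ n ≥ N, s ≤ n ∧
    ((2 * s * n.choose (n / 2) ^ 2 + 3 ^ s * (n - s).centralBinom : ℕ) : ℝ) ≤
      ε * n.centralBinom := by
  obtain ⟨s, hs⟩ := exists_pow_lt_of_lt_one (half_pos hε) (by norm_num : (6 / 7 : ℝ) < 1)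
  obtain ⟨M, hM⟩ := exists_nat_ge (5 * (4 * s / ε) ^ 2)
  refine ⟨s, s + 3 + M, fun n hn => ⟨by omega, ?_⟩⟩
  have hn0 : (0 : ℝ) < n := by exact_mod_cast (by omega : 0 < n)
  have hn1 : (1 : ℝ) ≤ n := by exact_mod_cast (by omega : 1 ≤ n)
  have hMn : (M : ℝ) ≤ n := by exact_mod_cast (by omega : M ≤ n)
  set c : ℝ := (n.centralBinom : ℝ) with hc
  have hc0 : 0 ≤ c := Nat.cast_nonneg _
  have t1 : (3 : ℝ) ^ s * (n - s).centralBinom ≤ ε / 2 * c := by
    have h := cb_ratio s (n - s) (by omega)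
    rw [Nat.sub_add_cancel (by omega)] at h
    have h' : (7 : ℝ) ^ s * (n - s).centralBinom ≤ 2 ^ s * c := by rw [hc]; exact_mod_cast h
    have h7 : (0 : ℝ) < 7 ^ s := by positivity
    have e : (6 / 7 : ℝ) ^ s = 3 ^ s * 2 ^ s / 7 ^ s := by
      rw [div_pow, ← mul_pow]; norm_num
    calc (3 : ℝ) ^ s * (n - s).centralBinom
        = 3 ^ s * (7 ^ s * (n - s).centralBinom) / 7 ^ s := by field_simp
      _ ≤ 3 ^ s * (2 ^ s * c) / 7 ^ s := by gcongr
      _ = (6 / 7) ^ s * c := by rw [e]; ring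
      _ ≤ ε / 2 * c := by gcongr
  have t2 : 2 * s * ((n.choose (n / 2) : ℝ)) ^ 2 ≤ ε / 2 * c := by
    set E : ℝ := (n.choose (n / 2) : ℝ) ^ 2 with hE
    have hE0 : 0 ≤ E := by positivity
    have h1 : E * n ≤ 4 ^ n := by rw [hE]; exact_mod_cast choose_half n
    have h2 : (16 : ℝ) ^ n ≤ c ^ 2 * (4 * n + 1) := by rw [hc]; exact_mod_cast cb_lower n
    have h3 : (E * n) ^ 2 ≤ c ^ 2 * (5 * n) := by
      calc (E * n) ^ 2 ≤ (4 ^ n) ^ 2 := by gcongr
        _ = 16 ^ n := by rw [← pow_mul, mul_comm, pow_mul]; norm_num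
        _ ≤ c ^ 2 * (4 * n + 1) := h2
        _ ≤ c ^ 2 * (5 * n) := by gcongr; linarith
    have h4 : E ^ 2 * n ≤ 5 * c ^ 2 := by
      have : (E ^ 2 * n) * n ≤ (5 * c ^ 2) * n := by nlinarith
      exact le_of_mul_le_mul_right this hn0
    have h5 : (4 * s / ε * E) ^ 2 ≤ c ^ 2 := by
      have : 5 * (4 * s / ε) ^ 2 * E ^ 2 ≤ n * E ^ 2 := by gcongr; linarith
      nlinarith
    have h6 : 4 * s / ε * E ≤ c := abs_le_of_sq_le_sq' h5 hc0 |>.2
    calc 2 * s * E = ε / 2 * (4 * s / ε * E) := by field_simp; ring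
      _ ≤ ε / 2 * c := by gcongr
  push_cast
  linarith

end Pool.Agent.Lib.MP_8a5253_lc
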